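import Mathlib

/-!
# DB-E-Leb: small neighbourhoods have preimages inside the cover

PLAN.  For `j` let `N j = {y | φ ⁻¹' {y} ⊆ O j} = complement of φ '' (O j)ᶜ`: `(O j)ᶜ` is compact, its image is
compact, so closed; so `N j` is open and the `N j` cover `Y` (`hfib`).  `lebesgue_number_lemma_of_metric`
(`isCompact_univ`) gives `δ` with `ball y δ ⊆ N j`, so `φ ⁻¹' ball y δ ⊆ O j`.
-/

set_option autoImplicit false

namespace Pool.Agent.DB

open Set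

theorem lebesgue_fibre {X Y : Type*} [TopologicalSpace X] [CompactSpace X] [MetricSpace Y]
    [CompactSpace Y] {φ : X → Y} (hφ : Continuous φ) {ι : Type} (O : ι → Set X)
    (hO : ∀ j, IsOpen (O j)) (hfib : ∀ y, ∃ j, φ ⁻¹' {y} ⊆ O j) :
    ∃ δ : ℝ, 0 < δ ∧ ∀ y, ∃ j, φ ⁻¹' (Metric.ball y δ) ⊆ O j := by
  have hN : ∀ j, IsOpen (φ '' (O j)ᶜ)ᶜ := fun j =>
    (((hO j).isClosed_compl.isCompact).image hφ).isClosed.isOpen_compl
  obtain ⟨δ, hδ, h⟩ := lebesgue_number_lemma_of_metric (isCompact_univ (X := Y)) hN (by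
    intro y _
    obtain ⟨j, hj⟩ := hfib y
    refine mem_iUnion.2 ⟨j, ?_⟩
    rintro ⟨x, hx, rfl⟩
    exact hx (hj rfl))
  refine ⟨δ, hδ, fun y => ?_⟩
  obtain ⟨j, hj⟩ := h y (mem_univ _)
  refine ⟨j, fun x hx => ?_⟩
  by_contra hxO
  exact hj hx ⟨x, hxO, rfl⟩

end Pool.Agent.DB
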