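import Pool.Agent.DB.Top.Basic
import Pool.Agent.DB.Top.Cpt

/-!
# DB-E-NerveS: the nerve of the cover by open stars

PLAN.  For `p : Fin n → ℝ` with `p ≥ 0`, `∑ p = 1`: the sets `U i`, `p i ≠ 0`, have a common point iff
there is `y` with `(φ y) (e i) > 0` for all these `i`, iff (`φ` onto) the vertices `e i`, `p i ≠ 0`, are all
in the support of one point of `real A`, iff they are contained in `{a, b}` with `a = b` or `a`
adjacent to `b` (for `⇐` take the midpoint of the edge, or the vertex), iff `p ∘ e.symm ∈ real A` (`real_iff`).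
So `p ↦ p ∘ e.symm` is a homeomorphism `nerveReal U ≃ₜ real A`.
-/

set_option autoImplicit false

namespace Pool.Agent.DB

open Set

private theorem nerve_iff {X W : Type} [TopologicalSpace X] [Fintype W] [DecidableEq W]
    (A : SimpleGraph W) (φ : X → real A) (hφs : Function.Surjective φ) {n : ℕ} (e : Fin n ≃ W)
    (U : Fin n → Set X) (hU : ∀ i, U i = {y | 0 < (φ y).1 (e i)}) (p : Fin n → ℝ) :
    p ∈ nerveReal U ↔ (fun w => p (e.symm w)) ∈ real A := by
  rw [real_iff]
  constructor
  · rintro ⟨h0, h1, y, hy⟩
    refine ⟨fun w => h0 _, ?_, ?_⟩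
    · rw [← h1]
      exact Equiv.sum_comp e.symm p
    · obtain ⟨_, _, a, b, hab, hsup⟩ := real_iff.1 (φ y).2
      refine ⟨a, b, hab, fun w hw => hsup w ?_⟩
      have h2 : y ∈ U (e.symm w) := by
        have h3 := mem_iInter₂.1 hy (e.symm w)
        exact h3 hw
      rw [hU] at h2
      simp only [mem_setOf_eq, Equiv.apply_symm_apply] at h2
      exact ne_of_gt h2
  · rintro ⟨h0, h1, a, b, hab, hsup⟩
    refine ⟨fun i => by simpa using h0 (e i), ?_, ?_⟩
    · rw [← h1]
      exact (Equiv.sum_comp e.symm p).symm
    · obtain ⟨y, hy⟩ := hφs ⟨(1 - (1 / 2 : ℝ)) • ev a + (1 / 2 : ℝ) • ev b,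
        a, b, hab, 1 / 2, by norm_num, by norm_num, rfl⟩
      refine ⟨y, mem_iInter₂.2 fun i hi => ?_⟩
      have hi' : p i ≠ 0 := hi
      have h2 := hsup (e i) (by simpa using hi')
      rw [hU]
      simp only [mem_setOf_eq]
      rw [hy]
      simp only [Pi.add_apply, Pi.smul_apply, ev_apply, smul_eq_mul]
      rcases h2 with h3 | h3
      · rw [h3, if_pos rfl]
        split_ifs <;> norm_num
      · rw [h3, if_pos rfl]
        split_ifs <;> norm_num

theorem nerve_star {X W : Type} [TopologicalSpace X] [Fintype W] [DecidableEq W]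
    (A : SimpleGraph W) (φ : X → real A) (hφs : Function.Surjective φ) {n : ℕ} (e : Fin n ≃ W)
    (U : Fin n → Set X) (hU : ∀ i, U i = {y | 0 < (φ y).1 (e i)}) :
    Nonempty (nerveReal U ≃ₜ real A) := by
  refine ⟨{
    toFun := fun p => ⟨fun w => p.1 (e.symm w), (nerve_iff A φ hφs e U hU p.1).1 p.2⟩
    invFun := fun q => ⟨fun i => q.1 (e i), (nerve_iff A φ hφs e U hU _).2 (by
      have h := q.2
      simpa using h)⟩
    left_inv := fun p => by
      apply Subtype.ext
      funext i
      simp
    right_inv := fun q => by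
      apply Subtype.ext
      funext w
      simp
    continuous_toFun := ?_
    continuous_invFun := ?_ }⟩
  · apply Continuous.subtype_mk
    exact continuous_pi fun w => (continuous_apply (e.symm w)).comp continuous_subtype_val
  · apply Continuous.subtype_mk
    exact continuous_pi fun i => (continuous_apply (e i)).comp continuous_subtype_val

end Pool.Agent.DB
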