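import Pool.Agent.DB.Top.SubH

/-!
# DB-E-Star: open stars of the subdivision are small

PLAN.  `p ∈ real (SubG G n)`, `0 < p c`: `p = (1-s) ev c + s ev c'` with `c = c'` or `c, c'` adjacent
(definition of `real`, and symmetry: `c` is one of the two vertices because `p c ≠ 0`); `smap` is linear:
`smap p = (1-s) (c/n) + s (c'/n)` (`smap_ev`), and `|c v - c' v| ≤ 1` for adjacent `c, c'`
(`c = spt a b t`, `c' = spt a b (t+1)`, `spt_val`, `sfun`).  So every coordinate of the difference to `c/n` is
at most `1/n`: `dist_pi_le_iff`.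
-/

set_option autoImplicit false

namespace Pool.Agent.DB

open Set

variable {V : Type} [Fintype V] [DecidableEq V] {G : SimpleGraph V} {n : ℕ}

private theorem smap_comb (a b : ℝ) (p q : SubV G n → ℝ) :
    smap G n (a • p + b • q) = a • smap G n p + b • smap G n q := by
  funext v
  simp only [smap, Pi.add_apply, Pi.smul_apply, smul_eq_mul, Finset.mul_sum]
  rw [← Finset.sum_add_distrib]
  refine Finset.sum_congr rfl fun c _ => ?_
  ring

private theorem adj_close {c c' : SubV G n} (h : (SubG G n).Adj c c') (v : V) :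
    |(c.1 v : ℝ) - c'.1 v| ≤ 1 := by
  obtain ⟨a, b, t, hab, ht, rfl, rfl⟩ := h
  rw [spt_val hab ht.le, spt_val hab (show t + 1 ≤ n from ht)]
  simp only [sfun]
  have hne := hab.ne
  have h1 : ((n - t : ℕ) : ℝ) = ((n - (t + 1) : ℕ) : ℝ) + 1 := by
    have : n - t = n - (t + 1) + 1 := by omega
    rw [this]
    push_cast
    rfl
  by_cases hva : v = a
  · have hvb : v ≠ b := fun h => hne (hva ▸ h)
    simp only [if_pos hva, if_neg hvb, add_zero]
    rw [h1]
    simp
  · by_cases hvb : v = b
    · simp only [if_neg hva, if_pos hvb, zero_add]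
      push_cast
      simp
    · simp [hva, hvb]

private theorem star_aux (hn : 0 < n) {c c' : SubV G n} (h : c = c' ∨ (SubG G n).Adj c c')
    {s : ℝ} (h0 : 0 ≤ s) (h1 : s ≤ 1) :
    dist (smap G n ((1 - s) • ev c + s • ev c')) (smap G n (ev c)) ≤ 1 / n := by
  have hn' : (0 : ℝ) < n := by exact_mod_cast hn
  rw [smap_comb, smap_ev, smap_ev, dist_pi_le_iff (by positivity)]
  intro v
  simp only [Pi.add_apply, Pi.smul_apply, smul_eq_mul]
  rw [Real.dist_eq]
  have h2 : |(c.1 v : ℝ) - c'.1 v| ≤ 1 := by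
    rcases h with h | h
    · rw [h]
      simp
    · exact adj_close h v
  have h3 : (1 - s) * ((c.1 v : ℝ) / n) + s * ((c'.1 v : ℝ) / n) - (c.1 v : ℝ) / n =
      s * ((c'.1 v : ℝ) - c.1 v) / n := by
    ring
  rw [h3, abs_div, abs_of_pos hn', abs_mul, abs_of_nonneg h0, abs_sub_comm]
  refine div_le_div_of_nonneg_right ?_ hn'.le
  nlinarith [abs_nonneg ((c.1 v : ℝ) - c'.1 v)]

theorem star_small (hn : 0 < n) {p : SubV G n → ℝ} (hp : p ∈ real (SubG G n)) {c : SubV G n}
    (hc : 0 < p c) : dist (smap G n p) (smap G n (ev c)) ≤ 1 / n := by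
  obtain ⟨a, b, hab, s, h0, h1, rfl⟩ := hp
  by_cases hca : c = a
  · subst hca
    exact star_aux hn hab h0 h1
  · by_cases hcb : c = b
    · subst hcb
      have h2 : c = a ∨ (SubG G n).Adj c a := hab.imp Eq.symm fun h => h.symm
      have h3 := star_aux hn h2 (s := 1 - s) (by linarith) (by linarith)
      rw [sub_sub_cancel, add_comm] at h3
      exact h3
    · exfalso
      simp [ev_apply, hca, hcb] at hc

end Pool.Agent.DB
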