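import Pool.Agent.DB.E.Leb
import Pool.Agent.DB.E.Star
import Pool.Agent.DB.E.NerveS

/-!
# DB-E-Main: a compact space with maps onto `real G` with small fibres is covered well (assembly)
-/

namespace Pool.Agent.DB

open Set

theorem E_main (X : Type) [TopologicalSpace X] [CompactSpace X] {V : Type} [Fintype V]
    [DecidableEq V] (G : SimpleGraph V) (hG : G.IsTree) (ι : Type) (O : ι → Set X)
    (hO : ∀ j, IsOpen (O j)) (φ : X → real G) (hφ : Continuous φ) (hφs : Function.Surjective φ)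
    (hfib : ∀ y, ∃ j, φ ⁻¹' {y} ⊆ O j) :
    ∃ (n : ℕ) (U : Fin n → Set X), (∀ i, IsOpen (U i)) ∧ (⋃ i, U i = univ) ∧
      (∀ i, ∃ j, U i ⊆ O j) ∧ Nonempty (nerveReal U ≃ₜ real G) := by
  classical
  have : CompactSpace (real G) := isCompact_iff_compactSpace.1 (real_isCompact G)
  obtain ⟨δ, hδ, hL⟩ := lebesgue_fibre hφ O hO hfib
  obtain ⟨k, hk⟩ := exists_nat_gt (1 / δ)
  have hk0 : (0 : ℝ) < k := lt_trans (by positivity) hk
  have hkn : 0 < k := by exact_mod_cast hk0
  have hkδ : 1 / (k : ℝ) < δ := by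
    rw [div_lt_iff₀ hk0]
    rw [div_lt_iff₀ hδ] at hk
    linarith
  obtain ⟨Φ, hΦ⟩ := sub_homeo G hkn
  set ψ : X → real (SubG G k) := fun y => Φ.symm (φ y) with hψ
  have hψc : Continuous ψ := Φ.symm.continuous.comp hφ
  have hψs : Function.Surjective ψ := Φ.symm.surjective.comp hφs
  let e : Fin (Fintype.card (SubV G k)) ≃ SubV G k := (Fintype.equivFin _).symm
  refine ⟨Fintype.card (SubV G k), fun i => {y | 0 < (ψ y).1 (e i)}, fun i => ?_, ?_, fun i => ?_, ?_⟩
  · exact isOpen_lt continuous_const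
      ((continuous_apply (e i)).comp (continuous_subtype_val.comp hψc))
  · rw [eq_univ_iff_forall]
    intro y
    rw [mem_iUnion]
    by_contra hcon
    push Not at hcon
    have h0 : ∀ c, (ψ y).1 c = 0 := by
      intro c
      have h1 := hcon (e.symm c)
      simp only [mem_setOf_eq, Equiv.apply_symm_apply, not_lt] at h1
      exact le_antisymm h1 (real_nonneg (ψ y).2 c)
    have h2 := real_sum (ψ y).2
    rw [Finset.sum_eq_zero fun c _ => h0 c] at h2
    exact zero_ne_one h2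
  · obtain ⟨j, hj⟩ := hL (Φ ⟨ev (e i), ev_mem (e i)⟩)
    refine ⟨j, fun y hy => hj ?_⟩
    change dist (φ y) (Φ ⟨ev (e i), ev_mem (e i)⟩) < δ
    have h1 := star_small hkn (ψ y).2 (c := e i) hy
    have h2 : (φ y).1 = smap G k (ψ y).1 := by
      rw [← hΦ (ψ y), hψ]
      simp only [Homeomorph.apply_symm_apply]
    have h3 : (Φ ⟨ev (e i), ev_mem (e i)⟩).1 = smap G k (ev (e i)) := hΦ _
    rw [Subtype.dist_eq, h2, h3]
    exact lt_of_le_of_lt h1 hkδ
  · obtain ⟨Ψ⟩ := nerve_star (SubG G k) ψ hψs e (fun i => {y | 0 < (ψ y).1 (e i)}) (fun i => rfl)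
    exact ⟨Ψ.trans Φ⟩

end Pool.Agent.DB
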